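import Pool.Agent.Helper78.W3.StD

/-!
# Project W3: binomial basis of plane functions modulo 3
-/

set_option autoImplicit false

namespace Pool.Agent.Helper99.W3

open Pool.Agent.Helper78.W3 Pool.Agent.Helper14.W3
open Pool.Agent.Helper14.CV (Homog EqC act Tl)

private theorem q_pos (r : ℕ) : 0 < 3 ^ r := Nat.pos_of_ne_zero (pow_ne_zero r (by norm_num))

private theorem val_succ {r : ℕ} (h1 : 1 < 3 ^ r) (x : ZMod (3 ^ r)) :
    (x + 1).val = if x.val + 1 < 3 ^ r then x.val + 1 else 0 := by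
  haveI : NeZero (3 ^ r) := ⟨(q_pos r).ne'⟩
  haveI : Fact (1 < 3 ^ r) := ⟨h1⟩
  rw [ZMod.val_add, ZMod.val_one]
  have hx : x.val < 3 ^ r := ZMod.val_lt x
  split_ifs with h
  · exact Nat.mod_eq_of_lt h
  · have : x.val + 1 = 3 ^ r := by omega
    rw [this, Nat.mod_self]

private theorem ch_zero {r i : ℕ} (hi : i + 1 < 3 ^ r) : (((3 ^ r).choose (i + 1) : ℕ) : ZMod 3) = 0 := by
  have hp : Nat.Prime 3 := Nat.prime_three
  have h : 3 ∣ (3 ^ r).choose (i + 1) := hp.dvd_choose_pow (by omega) (by omega)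
  exact (ZMod.natCast_eq_zero_iff _ _).2 h

private theorem pas {r i : ℕ} (hi : i + 1 < 3 ^ r) (x : ZMod (3 ^ r)) :
    (((x + 1).val.choose (i + 1) : ℕ) : ZMod 3) - ((x.val.choose (i + 1) : ℕ) : ZMod 3) =
      ((x.val.choose i : ℕ) : ZMod 3) := by
  have h1 : 1 < 3 ^ r := by omega
  rw [val_succ h1]
  haveI : NeZero (3 ^ r) := ⟨(q_pos r).ne'⟩
  have hx : x.val < 3 ^ r := ZMod.val_lt x
  split_ifs with h
  · rw [Nat.choose_succ_succ]
    push_cast
    ring
  · have e : x.val + 1 = 3 ^ r := by omega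
    have h2 := ch_zero hi
    rw [← e, Nat.choose_succ_succ] at h2
    push_cast at h2
    rw [Nat.choose_zero_succ, Nat.cast_zero]
    linear_combination -h2

private theorem dX_bb {r s i j : ℕ} (hi : i + 1 < 3 ^ r) :
    dX (bb3 (i + 1) j : Fn3 (3 ^ r) (3 ^ s)) = bb3 i j := by
  funext x y
  show (((x + 1).val.choose (i + 1) * y.val.choose j : ℕ) : ZMod 3) -
    ((x.val.choose (i + 1) * y.val.choose j : ℕ) : ZMod 3) = ((x.val.choose i * y.val.choose j : ℕ) : ZMod 3)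
  have h := pas hi x
  push_cast
  rw [← sub_mul, h]

private theorem dY_bb {r s i j : ℕ} (hj : j + 1 < 3 ^ s) :
    dY (bb3 i (j + 1) : Fn3 (3 ^ r) (3 ^ s)) = bb3 i j := by
  funext x y
  show ((x.val.choose i * (y + 1).val.choose (j + 1) : ℕ) : ZMod 3) -
    ((x.val.choose i * y.val.choose (j + 1) : ℕ) : ZMod 3) = ((x.val.choose i * y.val.choose j : ℕ) : ZMod 3)
  have h := pas hj y
  push_cast
  rw [← mul_sub, h]

private theorem dX_b0 {r s j : ℕ} : dX (bb3 0 j : Fn3 (3 ^ r) (3 ^ s)) = 0 := by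
  funext x y
  show (((x + 1).val.choose 0 * y.val.choose j : ℕ) : ZMod 3) - ((x.val.choose 0 * y.val.choose j : ℕ) : ZMod 3) = 0
  rw [Nat.choose_zero_right, Nat.choose_zero_right, sub_self]

private theorem dY_b0 {r s i : ℕ} : dY (bb3 i 0 : Fn3 (3 ^ r) (3 ^ s)) = 0 := by
  funext x y
  show ((x.val.choose i * (y + 1).val.choose 0 : ℕ) : ZMod 3) - ((x.val.choose i * y.val.choose 0 : ℕ) : ZMod 3) = 0
  rw [Nat.choose_zero_right, Nat.choose_zero_right, sub_self]

private theorem dX_pow {r s j : ℕ} : ∀ (a i : ℕ), i < 3 ^ r →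
    (dX ^ a : Module.End (ZMod 3) (Fn3 (3 ^ r) (3 ^ s))) (bb3 i j) = if a ≤ i then bb3 (i - a) j else 0
  | 0, i, _ => by simp
  | a + 1, 0, _ => by
    rw [pow_succ, Module.End.mul_apply, dX_b0, map_zero, if_neg (by omega)]
  | a + 1, i + 1, h => by
    rw [pow_succ, Module.End.mul_apply, dX_bb h, dX_pow a i (by omega)]
    by_cases h1 : a ≤ i
    · rw [if_pos h1, if_pos (by omega), Nat.add_sub_add_right]
    · rw [if_neg h1, if_neg (by omega)]

private theorem dY_pow {r s i : ℕ} : ∀ (b j : ℕ), j < 3 ^ s →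
    (dY ^ b : Module.End (ZMod 3) (Fn3 (3 ^ r) (3 ^ s))) (bb3 i j) = if b ≤ j then bb3 i (j - b) else 0
  | 0, j, _ => by simp
  | b + 1, 0, _ => by
    rw [pow_succ, Module.End.mul_apply, dY_b0, map_zero, if_neg (by omega)]
  | b + 1, j + 1, h => by
    rw [pow_succ, Module.End.mul_apply, dY_bb h, dY_pow b j (by omega)]
    by_cases h1 : b ≤ j
    · rw [if_pos h1, if_pos (by omega), Nat.add_sub_add_right]
    · rw [if_neg h1, if_neg (by omega)]

private theorem mem_bb {r s i j : ℕ} (hi : i < 3 ^ r) (hj : j < 3 ^ s) :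
    (bb3 i j : Fn3 (3 ^ r) (3 ^ s)) ∈ Wd3 ((i : ℤ) + j) := by
  intro a b hab
  rw [Module.End.mul_apply, dY_pow b j hj]
  by_cases h1 : b ≤ j
  · rw [if_pos h1, dX_pow a i hi, if_neg (by omega)]
  · rw [if_neg h1, map_zero]

/-! ### the Newton expansion -/

private theorem eX {q q' : ℕ} (F : Fn3 q q') : ∀ (n : ℕ) (F : Fn3 q q') (x : ZMod q) (y : ZMod q'),
    ((dX + 1) ^ n : Module.End (ZMod 3) (Fn3 q q')) F x y = F (x + n) y
  | 0, F, x, y => by simp
  | n + 1, F, x, y => by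
    rw [pow_succ, Module.End.mul_apply, eX F n]
    show F (x + n + 1) y - F (x + n) y + F (x + n) y = F (x + ((n + 1 : ℕ) : ZMod q)) y
    rw [sub_add_cancel]
    push_cast
    rw [add_assoc]

private theorem eY {q q' : ℕ} (F : Fn3 q q') : ∀ (n : ℕ) (F : Fn3 q q') (x : ZMod q) (y : ZMod q'),
    ((dY + 1) ^ n : Module.End (ZMod 3) (Fn3 q q')) F x y = F x (y + n)
  | 0, F, x, y => by simp
  | n + 1, F, x, y => by
    rw [pow_succ, Module.End.mul_apply, eY F n]
    show F x (y + n + 1) - F x (y + n) + F x (y + n) = F x (y + ((n + 1 : ℕ) : ZMod q'))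
    rw [sub_add_cancel]
    push_cast
    rw [add_assoc]

private theorem binom {M : Type} [AddCommGroup M] [Module (ZMod 3) M] (D : Module.End (ZMod 3) M) (n N : ℕ)
    (h : n < N) (v : M) :
    ((D + 1) ^ n) v = ∑ k ∈ Finset.range N, ((n.choose k : ℕ) : ZMod 3) • (D ^ k) v := by
  rw [(Commute.one_right D).add_pow n, LinearMap.sum_apply]
  have e : ∀ k ∈ Finset.range (n + 1), (D ^ k * 1 ^ (n - k) * ((n.choose k : ℕ) : Module.End (ZMod 3) M)) v =
      ((n.choose k : ℕ) : ZMod 3) • (D ^ k) v := by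
    intro k _
    rw [one_pow, mul_one, Module.End.mul_apply]
    have e2 : ((n.choose k : ℕ) : Module.End (ZMod 3) M) v = ((n.choose k : ℕ) : ZMod 3) • v := by
      rw [Module.End.natCast_apply, Nat.cast_smul_eq_nsmul]
    rw [e2, map_smul]
  rw [Finset.sum_congr rfl e]
  refine Finset.sum_subset (Finset.range_mono (by omega)) fun k _ hk => ?_
  rw [Finset.mem_range, not_lt] at hk
  rw [Nat.choose_eq_zero_of_lt (by omega), Nat.cast_zero, zero_smul]

private theorem newton {r s : ℕ} (F : Fn3 (3 ^ r) (3 ^ s)) :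
    F = ∑ i ∈ Finset.range (3 ^ r), ∑ j ∈ Finset.range (3 ^ s),
      (((dX ^ i * dY ^ j : Module.End (ZMod 3) (Fn3 (3 ^ r) (3 ^ s))) F) 0 0) • bb3 i j := by
  haveI : NeZero (3 ^ r) := ⟨(q_pos r).ne'⟩
  haveI : NeZero (3 ^ s) := ⟨(q_pos s).ne'⟩
  funext x y
  have h1 : F x y = ((dX + 1) ^ x.val : Module.End (ZMod 3) (Fn3 (3 ^ r) (3 ^ s)))
      (((dY + 1) ^ y.val : Module.End (ZMod 3) (Fn3 (3 ^ r) (3 ^ s))) F) 0 0 := by
    rw [eX F, eY F, zero_add, zero_add, ZMod.natCast_zmod_val, ZMod.natCast_zmod_val]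
  rw [h1, binom dX x.val (3 ^ r) (ZMod.val_lt x)]
  rw [Finset.sum_apply, Finset.sum_apply, Finset.sum_apply, Finset.sum_apply]
  refine Finset.sum_congr rfl fun i _ => ?_
  rw [binom dY y.val (3 ^ s) (ZMod.val_lt y), map_sum, Finset.smul_sum, Finset.sum_apply, Finset.sum_apply,
    Finset.sum_apply, Finset.sum_apply]
  refine Finset.sum_congr rfl fun j _ => ?_
  rw [map_smul]
  show ((x.val.choose i : ℕ) : ZMod 3) * (((y.val.choose j : ℕ) : ZMod 3) *
      (((dX ^ i : Module.End (ZMod 3) (Fn3 (3 ^ r) (3 ^ s)))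
        ((dY ^ j : Module.End (ZMod 3) (Fn3 (3 ^ r) (3 ^ s))) F)) 0 0)) =
    (((dX ^ i : Module.End (ZMod 3) (Fn3 (3 ^ r) (3 ^ s)))
        ((dY ^ j : Module.End (ZMod 3) (Fn3 (3 ^ r) (3 ^ s))) F)) 0 0) *
      ((x.val.choose i * y.val.choose j : ℕ) : ZMod 3)
  push_cast
  ring

/-- **BB**: the binomial basis -/
theorem hBb (_hLow0 : S3Low0) : S3Bb := fun _ _ =>
  ⟨fun _ _ hi hj => mem_bb hi hj, fun _ _ hi _ => dX_bb hi, fun _ _ _ hj => dY_bb hj, fun _ _ => dX_b0,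
    fun _ _ => dY_b0, fun F => newton F⟩

end Pool.Agent.Helper99.W3
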